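import Mathlib

/-! The sign argument: the equations for the ten-vertex graph have no solution of trace zero. -/

namespace Pool.Agent.Q105.MPB

/-- one corner: if `f D + a w + h k = 0` with `q a + c h = 0`, `q w + c k = 0`, then
`D * (a f w) < 0` -/
theorem corner {f D a w h k q c : ℝ} (hc : c ≠ 0) (ha : a ≠ 0) (hw : w ≠ 0)
    (h1 : f * D + a * w + h * k = 0) (h2 : q * a + c * h = 0) (h3 : q * w + c * k = 0) :
    D * (a * f * w) < 0 := by
  have e1 : c ^ 2 * (h * k) = q ^ 2 * (a * w) := by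
    have e2 : c * h = -(q * a) := by linarith
    have e3 : c * k = -(q * w) := by linarith
    calc c ^ 2 * (h * k) = (c * h) * (c * k) := by ring
      _ = q ^ 2 * (a * w) := by rw [e2, e3]; ring
  have e4 : c ^ 2 * (D * (a * f * w)) = -((a * w) ^ 2 * (c ^ 2 + q ^ 2)) := by
    have e5 : f * D = -(a * w + h * k) := by linarith
    calc c ^ 2 * (D * (a * f * w)) = c ^ 2 * (f * D) * (a * w) := by ring
      _ = -((a * w) * c ^ 2 + c ^ 2 * (h * k)) * (a * w) := by rw [e5]; ring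
      _ = -((a * w) ^ 2 * (c ^ 2 + q ^ 2)) := by rw [e1]; ring
  have hc2 : 0 < c ^ 2 := by positivity
  have haw : 0 < (a * w) ^ 2 * (c ^ 2 + q ^ 2) := by positivity
  by_contra hcon
  have : 0 ≤ c ^ 2 * (D * (a * f * w)) := mul_nonneg hc2.le (not_lt.1 hcon)
  linarith

theorem corner' {D a f w : ℝ} (ha : a ≠ 0) (hf : f ≠ 0) (h1 : w * D + f * a = 0) :
    D * (a * f * w) < 0 := by
  have e : D * (a * f * w) = -(f * a) ^ 2 := by
    have e5 : w * D = -(f * a) := by linarith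
    calc D * (a * f * w) = (w * D) * (f * a) := by ring
      _ = -(f * a) ^ 2 := by rw [e5]; ring
  rw [e]
  have : 0 < (f * a) ^ 2 := by positivity
  linarith

theorem contra {E₀ E₁ E₂ E₃ E₄ E₅ E₆ E₇ E₈ E₉ p q c x y e f a l h g b m i s t j w k n o : ℝ}
    (hp : p ≠ 0) (hq : q ≠ 0) (hc : c ≠ 0) (he : e ≠ 0)
    (hf : f ≠ 0) (ha : a ≠ 0) (hg : g ≠ 0) (hb : b ≠ 0) (hs : s ≠ 0) (ht : t ≠ 0) (hw : w ≠ 0)
    (e02 : q * a + c * h = 0) (e03 : p * b + c * i = 0) (e04 : p * t + c * j = 0)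
    (e05 : q * w + c * k = 0) (e12 : y * f + e * l = 0) (e13 : x * g + e * m = 0)
    (e16 : x * t + e * n = 0) (e17 : y * w + e * o = 0) (e24 : f * s + h * j = 0)
    (e35 : g * s + i * k = 0) (e09 : c * (E₀ + E₉) = 0) (e18 : e * (E₁ + E₈) = 0)
    (e25 : f * (E₂ + E₅) + a * w + h * k = 0) (e34 : g * (E₃ + E₄) + b * t + i * j = 0)
    (e27 : a * (E₂ + E₇) + f * w + l * o = 0) (e36 : b * (E₃ + E₆) + g * t + m * n = 0)
    (e46 : t * (E₄ + E₆) + g * b = 0) (e57 : w * (E₅ + E₇) + f * a = 0)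
    (htr : E₀ + E₁ + E₂ + E₃ + E₄ + E₅ + E₆ + E₇ + E₈ + E₉ = 0) : False := by
  have c1 : (E₂ + E₅) * (a * f * w) < 0 := corner hc ha hw e25 e02 e05
  have c2 : (E₂ + E₇) * (f * a * w) < 0 := corner he hf hw e27 e12 e17
  have c3 : (E₅ + E₇) * (a * f * w) < 0 := corner' ha hf e57
  have c4 : (E₃ + E₄) * (b * g * t) < 0 := corner hc hb ht e34 e03 e04
  have c5 : (E₃ + E₆) * (g * b * t) < 0 := corner he hg ht e36 e13 e16
  have c6 : (E₄ + E₆) * (b * g * t) < 0 := corner' hb hg e46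
  have h09 : E₀ + E₉ = 0 := (mul_eq_zero.1 e09).resolve_left hc
  have h18 : E₁ + E₈ = 0 := (mul_eq_zero.1 e18).resolve_left he
  set θ := a * f * w with hθ
  set φ := b * g * t with hφ
  have hs1 : (E₂ + E₅ + E₇) * θ < 0 := by
    have k1 : (E₂ + E₇) * θ < 0 := by rw [hθ, mul_comm a f]; exact c2
    have k2 : (E₂ + E₅) * θ + (E₂ + E₇) * θ + (E₅ + E₇) * θ = 2 * ((E₂ + E₅ + E₇) * θ) := by ring
    linarith
  have hs2 : (E₃ + E₄ + E₆) * φ < 0 := by
    have k1 : (E₃ + E₆) * φ < 0 := by rw [hφ, mul_comm b g]; exact c5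
    have k2 : (E₃ + E₄) * φ + (E₃ + E₆) * φ + (E₄ + E₆) * φ = 2 * ((E₃ + E₄ + E₆) * φ) := by ring
    linarith
  have hsum : E₃ + E₄ + E₆ = -(E₂ + E₅ + E₇) := by linarith
  rw [hsum] at hs2
  have hpos : 0 < θ * φ := by
    have e1 : f * s * c ^ 2 = -(q * a * (p * t)) := by
      have k1 : c * h = -(q * a) := by linarith
      have k2 : c * j = -(p * t) := by linarith
      have k3 : f * s = -(h * j) := by linarith
      calc f * s * c ^ 2 = -((c * h) * (c * j)) := by rw [k3]; ring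
        _ = -(q * a * (p * t)) := by rw [k1, k2]; ring
    have e2 : g * s * c ^ 2 = -(p * b * (q * w)) := by
      have k1 : c * i = -(p * b) := by linarith
      have k2 : c * k = -(q * w) := by linarith
      have k3 : g * s = -(i * k) := by linarith
      calc g * s * c ^ 2 = -((c * i) * (c * k)) := by rw [k3]; ring
        _ = -(p * b * (q * w)) := by rw [k1, k2]; ring
    have e3 : (p * q) ^ 2 * (θ * φ) = (f * g * (s * c ^ 2)) ^ 2 := by
      calc (p * q) ^ 2 * (θ * φ) = (-(q * a * (p * t))) * (-(p * b * (q * w))) * (f * g) := by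
            rw [hθ, hφ]; ring
        _ = (f * g * (s * c ^ 2)) ^ 2 := by rw [← e1, ← e2]; ring
    have e4 : 0 < (f * g * (s * c ^ 2)) ^ 2 := by positivity
    have e5 : 0 < (p * q) ^ 2 := by positivity
    rw [← e3] at e4
    exact (mul_pos_iff_of_pos_left e5).1 e4
  have k1 := mul_pos_of_neg_of_neg hs1 hs2
  have k2 := mul_nonneg (sq_nonneg (E₂ + E₅ + E₇)) hpos.le
  have k3 : (E₂ + E₅ + E₇) * θ * (-(E₂ + E₅ + E₇) * φ) = -((E₂ + E₅ + E₇) ^ 2 * (θ * φ)) := by
    ring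
  linarith

end Pool.Agent.Q105.MPB
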