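import Mathlib

/-! Multiplicity bipartitions of graphs: symmetric matrices with two distinct eigenvalues. -/

namespace Pool.Agent.Q105.MPB

open Matrix Polynomial Finset

/-- `InS G A`: the matrix `A` is real symmetric and, off the diagonal, `A i j ≠ 0` exactly when
`ij` is an edge of `G`; the diagonal is unrestricted. -/
def InS {n : ℕ} (G : SimpleGraph (Fin n)) (A : Matrix (Fin n) (Fin n) ℝ) : Prop :=
  A.IsSymm ∧ ∀ i j, i ≠ j → (A i j ≠ 0 ↔ G.Adj i j)

/-- `G` achieves the multiplicity bipartition `[m, k]`: some matrix of `S(G)` has exactly two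
distinct eigenvalues `a` and `b`, of multiplicities `m` and `k`. -/
def Achieves {n : ℕ} (G : SimpleGraph (Fin n)) (m k : ℕ) : Prop :=
  ∃ A : Matrix (Fin n) (Fin n) ℝ, InS G A ∧
    ∃ a b : ℝ, a ≠ b ∧ A.charpoly = (X - C a) ^ m * (X - C b) ^ k

section general

variable {V : Type} [Fintype V] [DecidableEq V]

omit [Fintype V] [DecidableEq V] in
theorem isHermitian_of_isSymm {A : Matrix V V ℝ} (h : A.IsSymm) : A.IsHermitian := by
  unfold Matrix.IsHermitian
  rw [conjTranspose_eq_transpose_of_trivial]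
  exact h

theorem prod_eq_zero {A : Matrix V V ℝ} (h : A.IsSymm) {a b : ℝ} {m k : ℕ}
    (hc : A.charpoly = (X - C a) ^ m * (X - C b) ^ k) :
    (A - a • (1 : Matrix V V ℝ)) * (A - b • (1 : Matrix V V ℝ)) = 0 := by
  have hA := isHermitian_of_isSymm h
  have hev : ∀ i, (hA.eigenvalues i - a) * (hA.eigenvalues i - b) = 0 := by
    intro i
    have h1 : A.charpoly.eval (hA.eigenvalues i) = 0 := by
      rw [hA.charpoly_eq, eval_prod]
      apply Finset.prod_eq_zero (mem_univ i)
      simp
    rw [hc] at h1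
    simp only [eval_mul, eval_pow, eval_sub, eval_X, eval_C] at h1
    rcases mul_eq_zero.1 h1 with h2 | h2
    · rw [(pow_eq_zero_iff (by rintro rfl; simp at h2)).1 h2, zero_mul]
    · rw [(pow_eq_zero_iff (by rintro rfl; simp at h2)).1 h2, mul_zero]
  have hsp : ∀ i, A *ᵥ (hA.eigenvectorBasis i).ofLp = hA.eigenvalues i •
      (hA.eigenvectorBasis i).ofLp := fun i => hA.mulVec_eigenvectorBasis i
  have hz : ∀ i, ((A - a • (1 : Matrix V V ℝ)) * (A - b • (1 : Matrix V V ℝ))) *ᵥ
      (hA.eigenvectorBasis i).ofLp = 0 := by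
    intro i
    rw [← mulVec_mulVec]
    simp only [sub_mulVec, smul_mulVec, one_mulVec, hsp i, mulVec_sub, mulVec_smul]
    have := hev i
    ext x
    simp only [Pi.sub_apply, Pi.smul_apply, smul_eq_mul, Pi.zero_apply]
    linear_combination (hA.eigenvectorBasis i).ofLp x * this
  have hlin : Matrix.toEuclideanLin ((A - a • (1 : Matrix V V ℝ)) * (A - b • (1 : Matrix V V ℝ)))
      = 0 := by
    apply hA.eigenvectorBasis.toBasis.ext
    intro i
    rw [OrthonormalBasis.coe_toBasis, LinearMap.zero_apply]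
    have := hz i
    ext x
    rw [Matrix.toLpLin_apply]
    simpa using congrFun this x
  exact Matrix.toEuclideanLin.injective (by rw [hlin, map_zero])

theorem trace_eq {A : Matrix V V ℝ} (h : A.IsSymm) {a b : ℝ} {m k : ℕ}
    (hc : A.charpoly = (X - C a) ^ m * (X - C b) ^ k) :
    A.trace = m * a + k * b := by
  have hA := isHermitian_of_isSymm h
  rw [Matrix.trace_eq_sum_roots_charpoly_of_splits hA.splits_charpoly, hc, roots_mul, roots_pow,
    roots_pow, roots_X_sub_C, roots_X_sub_C]
  · simp [Multiset.sum_nsmul]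
  · exact mul_ne_zero (pow_ne_zero _ (X_sub_C_ne_zero a)) (pow_ne_zero _ (X_sub_C_ne_zero b))

theorem charpoly_of_sq {A : Matrix V V ℝ} (h : A.IsSymm) {c : ℝ} (hc : c ≠ 0)
    (hsq : A * A = (c * c) • (1 : Matrix V V ℝ)) {m k : ℕ} (hmk : m + k = Fintype.card V)
    (htr : A.trace = m * c - k * c) :
    A.charpoly = (X - C c) ^ m * (X - C (-c)) ^ k := by
  have hA := isHermitian_of_isSymm h
  have hev : ∀ i, hA.eigenvalues i = c ∨ hA.eigenvalues i = -c := by
    intro i
    have h1 : A *ᵥ (A *ᵥ (hA.eigenvectorBasis i).ofLp) = (hA.eigenvalues i * hA.eigenvalues i) •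
        (hA.eigenvectorBasis i).ofLp := by
      rw [hA.mulVec_eigenvectorBasis i, mulVec_smul, hA.mulVec_eigenvectorBasis i, smul_smul]
    rw [mulVec_mulVec, hsq, smul_mulVec, one_mulVec] at h1
    have hne : (hA.eigenvectorBasis i).ofLp ≠ 0 := by
      intro h0
      have h2 := hA.eigenvectorBasis.orthonormal.1 i
      have h3 : hA.eigenvectorBasis i = 0 := by
        ext x
        have := congrFun h0 x
        simpa using this
      rw [h3, norm_zero] at h2
      exact zero_ne_one h2
    obtain ⟨x, hx⟩ := Function.ne_iff.1 hne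
    have h4 := congrFun h1 x
    simp only [Pi.smul_apply, smul_eq_mul] at h4
    have h5 : hA.eigenvalues i * hA.eigenvalues i = c * c := (mul_right_cancel₀ hx h4).symm
    exact mul_self_eq_mul_self_iff.1 h5
  set s := univ.filter (fun i => hA.eigenvalues i = c) with hs
  have hnc : ∀ i, i ∉ s → hA.eigenvalues i = -c := by
    intro i hi
    rcases hev i with h1 | h1
    · exact absurd (mem_filter.2 ⟨mem_univ i, h1⟩) hi
    · exact h1
  have hyc : ∀ i, i ∈ s → hA.eigenvalues i = c := fun i hi => (mem_filter.1 hi).2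
  have hcard : s.card + sᶜ.card = m + k := by
    rw [card_add_card_compl, hmk]
  have htr2 : A.trace = s.card * c - sᶜ.card * c := by
    rw [hA.trace_eq_sum_eigenvalues, ← sum_add_sum_compl s]
    rw [sum_congr rfl (fun i hi => by rw [hyc i hi]), sum_congr (s₁ := sᶜ) rfl
      (fun i hi => by rw [hnc i (mem_compl.1 hi)])]
    simp only [sum_const, nsmul_eq_mul, RCLike.ofReal_real_eq_id, id_eq]
    ring
  have hsc : s.card = m := by
    have h1 : ((s.card : ℝ) + sᶜ.card) = m + k := by exact_mod_cast hcard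
    have h2 : ((s.card : ℝ) - sᶜ.card) * c = (m - k) * c := by linarith
    have h3 := mul_right_cancel₀ hc h2
    have h4 : (s.card : ℝ) = m := by linarith
    exact_mod_cast h4
  have hsk : sᶜ.card = k := by omega
  rw [hA.charpoly_eq, ← prod_mul_prod_compl s]
  rw [prod_congr rfl (fun i hi => by rw [hyc i hi]), prod_congr (s₁ := sᶜ) rfl
      (fun i hi => by rw [hnc i (mem_compl.1 hi)])]
  rw [prod_const, prod_const, hsc, hsk]
  simp

end general

end Pool.Agent.Q105.MPB
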